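import Pool.Agent.helper70.LZ.SpecZ

/-! # Project LE (MP_baa4d7_al), block BOUND-Z, row ZL5: integrality -/

set_option autoImplicit false

namespace Pool.Agent.LE

open Pool.Agent.helper58.DC Pool.Agent.DI Pool.Agent.GR Pool.Agent.OB Pool.Agent.DR Pool.Agent.FI Pool.Agent.FI3 Pool.Agent.FI4

theorem ZL5_setup (q : ℕ) (hq : q.Prime) : ∃ M' : Ideal (integralClosure ℤ ℂ), Setup q M' := by
  have hne : Ideal.span {(q : integralClosure ℤ ℂ)} ≠ ⊤ := by
    intro h
    rw [Ideal.span_singleton_eq_top] at h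
    obtain ⟨b, hb⟩ := h.exists_right_inv
    have h1 : (q : ℂ) * (b : ℂ) = 1 := by
      have := congrArg (fun a : integralClosure ℤ ℂ => (a : ℂ)) hb
      simpa using this
    have hq0 : (q : ℂ) ≠ 0 := by exact_mod_cast hq.ne_zero
    have hq0' : (q : ℚ) ≠ 0 := by exact_mod_cast hq.ne_zero
    have h2 : IsIntegral ℤ ((algebraMap ℚ ℂ) ((q : ℚ)⁻¹)) := by
      have h3 : (algebraMap ℚ ℂ) ((q : ℚ)⁻¹) = (b : ℂ) := by
        rw [map_inv₀, map_natCast]
        exact inv_eq_of_mul_eq_one_right h1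
      rw [h3]
      exact b.2
    have h3 : IsIntegral ℤ ((q : ℚ)⁻¹) := (isIntegral_algebraMap_iff (algebraMap ℚ ℂ).injective).1 h2
    obtain ⟨n, hn⟩ := IsIntegrallyClosed.isIntegral_iff.1 h3
    have h4 : (q : ℤ) * n = 1 := by
      have h5 : (q : ℚ) * (n : ℚ) = 1 := by
        rw [show (n : ℚ) = (q : ℚ)⁻¹ from hn]
        exact mul_inv_cancel₀ hq0'
      exact_mod_cast h5
    have h5 : (q : ℤ) ∣ 1 := ⟨n, h4.symm⟩
    have h6 : q ∣ 1 := by exact_mod_cast h5
    exact hq.one_lt.ne' (Nat.dvd_one.1 h6)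
  obtain ⟨M', hM', hle⟩ := Ideal.exists_le_maximal _ hne
  exact ⟨M', hq, hM', hle (Ideal.mem_span_singleton_self _)⟩

theorem ZL5_dvd {p : ℕ} {M : Ideal (integralClosure ℤ ℂ)} (h : Setup p M) {a : ℤ}
    (ha : InM M (a : ℂ)) : p ∣ a.natAbs := by
  obtain ⟨n, rfl | rfl⟩ := Int.eq_nat_or_neg a
  · have h1 : InM M (n : ℂ) := by simpa using ha
    simpa using (InM.natCast h n).1 h1
  · have h1 : InM M (n : ℂ) := by simpa using InM.neg ha
    simpa using (InM.natCast h n).1 h1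

theorem ZL5 (hZL2 : ZL2_stmt) (hZL3 : ZL3_stmt) (hZL4 : ZL4_stmt) : ZL5_stmt := by
  intro p M hM G _ _ D x θ χ lo P hP η hη η' hη'
  have hη1 : η ∈ IrrOn (cz P) := hη.1
  obtain ⟨r, hr⟩ := hZL3 p hM.pr G (cz P) η hη1 η' hη'
  set R : ℚ := (Nat.card D : ℚ) * r with hR
  have hRC : (Nat.card D : ℂ) * EE p (cz P) η η' = (R : ℂ) := by
    rw [hr, hR]
    push_cast
    rfl
  have hnum : (R : ℂ) * (R.den : ℂ) = (R.num : ℂ) := by
    have h1 : R * (R.den : ℚ) = (R.num : ℚ) := Rat.mul_den_eq_num R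
    have h2 : ((R * (R.den : ℚ) : ℚ) : ℂ) = ((R.num : ℚ) : ℂ) := by rw [h1]
    rw [Rat.cast_mul, Rat.cast_natCast, Rat.cast_intCast] at h2
    exact h2
  have hden : R.den = 1 := by
    by_contra hne
    obtain ⟨q, hq, hqd⟩ := Nat.exists_prime_and_dvd hne
    have hcop : ¬ q ∣ R.num.natAbs := fun h => hq.one_lt.ne' (Nat.eq_one_of_dvd_coprimes R.reduced h hqd)
    by_cases hqp : q = p
    · rw [hqp] at hqd hcop
      have h1 : IntAt M (R : ℂ) := by
        rw [← hRC]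
        exact hZL4 p M hM G D x θ χ lo P hP η hη η' hη'
      have h2 : InM M (R.num : ℂ) := by
        rw [← hnum]
        exact InM.mul_left hM h1 ((InM.natCast hM _).2 hqd)
      exact hcop (ZL5_dvd hM h2)
    · obtain ⟨M', hM'⟩ := ZL5_setup q hq
      obtain ⟨α, hα1, hα2, hα3⟩ := hZL2 p q hM.pr hq hqp M' hM' G (cz P) η hη1 η' hη'
      have h1 : IntAt M' (α * (R : ℂ)) := by
        have h2 : α * (R : ℂ) = (Nat.card D : ℂ) * (α * EE p (cz P) η η') := by
          rw [← hRC]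
          ring
        rw [h2]
        exact (IntAt.natCast hM' _).mul hM' (IntAt.of_isIntegral hM' hα3)
      have h2 : InM M' (α * (R.num : ℂ)) := by
        rw [← hnum, ← mul_assoc]
        exact InM.mul_left hM' h1 ((InM.natCast hM' _).2 hqd)
      have h3 : IntAt M' (R.num : ℂ) := IntAt.of_isIntegral hM' (by
        have := isIntegral_algebraMap (R := ℤ) (A := ℂ) (x := R.num)
        simpa using this)
      rcases InM.or hM' (IntAt.of_isIntegral hM' hα1) h3 h2 with h4 | h4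
      · exact hα2 h4
      · exact hcop (ZL5_dvd hM' h4)
  refine ⟨R.num, ?_⟩
  rw [hRC, ← hnum, hden, Nat.cast_one, mul_one]

end Pool.Agent.LE
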