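import Pool.Agent.helper70.LZ.SpecZ

/-! # Project LE (MP_baa4d7_al), block BOUND-Z, row ZTS: fusion -/

set_option autoImplicit false

namespace Pool.Agent.LE

open Pool.Agent.helper58.DC Pool.Agent.DI Pool.Agent.GR Pool.Agent.OB Pool.Agent.DR Pool.Agent.FI Pool.Agent.FI3 Pool.Agent.FI4

theorem ZTS_czbot {G : Type} [Group G] : cz (⊥ : Subgroup G) = ⊤ := by
  refine top_unique fun g _ => ?_
  rw [Subgroup.mem_centralizer_iff]
  intro h hh
  have h1 : h = 1 := by simpa using hh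
  rw [h1, one_mul, mul_one]

theorem ZTS_mem {G : Type} [Group G] {u k : G} :
    k ∈ Cz (⊤ : Subgroup G) u ↔ u * k = k * u := by
  unfold Cz
  rw [Subgroup.mem_inf, Subgroup.mem_centralizer_iff]
  constructor
  · intro h
    exact h.2 u rfl
  · intro h
    refine ⟨trivial, ?_⟩
    intro v hv
    rw [Set.mem_singleton_iff] at hv
    rw [hv]
    exact h

/-- `Cz ⊤ (u ^ m) = Cz ⊤ u` if `m` is prime to the order of `u`. -/
theorem ZTS_Cz {G : Type} [Group G] {u : G} {m : ℕ} (hm : m.Coprime (orderOf u)) :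
    Cz (⊤ : Subgroup G) (u ^ m) = Cz (⊤ : Subgroup G) u := by
  obtain ⟨n, hn⟩ := exists_pow_eq_self_of_coprime hm
  ext k
  rw [ZTS_mem, ZTS_mem]
  constructor
  · intro h
    have h1 : Commute (u ^ m) k := h
    have h2 : Commute ((u ^ m) ^ n) k := h1.pow_left n
    rw [hn] at h2
    exact h2
  · intro h
    have h1 : Commute u k := h
    exact h1.pow_left m

theorem ZTS_conj {G : Type} [Group G] {t u : G} {m : ℕ} (h : t * u * t⁻¹ = u ^ m) (j : ℕ) :
    t ^ j * u * (t ^ j)⁻¹ = u ^ (m ^ j) := by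
  induction j with
  | zero => simp
  | succ j ih =>
    have h1 : t ^ (j + 1) * u * (t ^ (j + 1))⁻¹ = t * (t ^ j * u * (t ^ j)⁻¹) * t⁻¹ := by
      rw [pow_succ']
      group
    rw [h1, ih, ← conj_pow, h, ← pow_mul]
    congr 1
    rw [pow_succ']

/-- A power of an element of `TT M D θ`. -/
theorem ZTS_TT {G : Type} [Group G] {M : Ideal (integralClosure ℤ ℂ)} {D : Subgroup G} {θ : G → ℂ}
    {t : G} (ht : t ∈ TT M D θ) : t ^ (cz D).relIndex (TT M D θ) ∈ cz D := by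
  have hN : ((cz D).subgroupOf (TT M D θ)).Normal := by
    refine ⟨fun n hn g => ?_⟩
    rw [Subgroup.mem_subgroupOf] at hn ⊢
    exact cz_conj g.2.1 hn
  have h1 := Subgroup.pow_index_mem ((cz D).subgroupOf (TT M D θ)) ⟨t, ht⟩
  rw [Subgroup.mem_subgroupOf] at h1
  exact h1

theorem ZTS_iter {G : Type} [Group G] {u : G} {s m : ℕ} (h : u ^ (s ^ m) = u) (a : ℕ) : u ^ (s ^ (m * a)) = u := by
  induction a with
  | zero => simp
  | succ a ih =>
    rw [Nat.mul_succ, pow_add, pow_mul, ih, h]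

theorem ZTS_key {G : Type} [Group G] {u : G} {s p e N : ℕ} (hp : p.Prime) (he : 1 ≤ e) (hu : u ^ p ^ e = 1)
    (hs : s ≡ 1 [MOD p]) (hN : ¬ p ∣ N) (h : u ^ (s ^ N) = u) : u ^ s = u := by
  have h1 : (p : ℤ) ∣ (s : ℤ) - 1 := by
    have := (Nat.modEq_iff_dvd.1 hs.symm)
    simpa using this
  have h2 := dvd_sub_pow_of_dvd_sub h1 e
  rw [one_pow] at h2
  have h3 : ((p ^ e : ℕ) : ℤ) ∣ ((s ^ (p ^ e) : ℕ) : ℤ) - ((1 : ℕ) : ℤ) := by
    push_cast
    exact (pow_dvd_pow (p : ℤ) (Nat.le_succ e)).trans h2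
  have h4 : 1 ≡ s ^ (p ^ e) [MOD p ^ e] := Nat.modEq_iff_dvd.2 h3
  have h5 : orderOf u ∣ p ^ e := orderOf_dvd_of_pow_eq_one hu
  have h6 : u ^ (s ^ (p ^ e)) = u := by
    have h7 : u ^ (s ^ (p ^ e)) = u ^ 1 := pow_eq_pow_iff_modEq.2 (h4.symm.of_dvd h5)
    rw [h7, pow_one]
  have hcop : Nat.Coprime N (p ^ e) := ((Nat.Prime.coprime_iff_not_dvd hp).2 hN).symm.pow_right e
  have h1e : 1 < p ^ e := Nat.one_lt_pow (by omega) hp.one_lt
  obtain ⟨a, -, ha⟩ := Nat.exists_mul_mod_eq_one_of_coprime hcop h1e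
  have h7 : N * a = p ^ e * (N * a / p ^ e) + 1 := by
    have := Nat.div_add_mod (N * a) (p ^ e)
    rw [ha] at this
    exact this.symm
  have h8 := ZTS_iter h a
  rw [h7, pow_succ, pow_mul, ZTS_iter h6] at h8
  exact h8

theorem ZTS (hQFU4 : QFU4_stmt) : ZTS_stmt := by
  intro p M hS G _ _ D x θ χ lo z hz η₀ hη₀ i j hi hij g hg hSB
  have hp := hS.pr
  obtain ⟨k0, hk0⟩ := lo.rt.dfa.pgrp ⟨z, hz⟩
  have hk1 : z ^ p ^ k0 = 1 := by
    have := congrArg (fun a : D => (a : G)) hk0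
    simpa using this
  obtain ⟨e, -, he⟩ := (Nat.dvd_prime_pow hp).1 (orderOf_dvd_of_pow_eq_one hk1)
  rcases Nat.eq_zero_or_pos e with he0 | he1
  · have h1 : z = 1 := by
      rw [he0, pow_zero] at he
      exact orderOf_eq_one_iff.1 he
    rw [h1, one_pow, one_pow]
  have hj : ¬ p ∣ j := fun h => hi ((Nat.ModEq.dvd_iff hij (dvd_refl p)).2 h)
  have hci : i.Coprime (orderOf z) := by
    rw [he]
    exact ((Nat.Prime.coprime_iff_not_dvd hp).2 hi).symm.pow_right e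
  have hcj : j.Coprime (orderOf z) := by
    rw [he]
    exact ((Nat.Prime.coprime_iff_not_dvd hp).2 hj).symm.pow_right e
  have hCi := ZTS_Cz hci
  have hCj := ZTS_Cz hcj
  have hQ := hQFU4 p M hS G D x θ χ lo ⊥ bot_le (z ^ i) (D.pow_mem hz i) g
  rw [ZTS_czbot, hg, hCi, hCj] at hQ
  obtain ⟨k, hk, hkg⟩ := hQ trivial (D.pow_mem hz j) η₀ hη₀.1 hη₀.2.symm (hη₀.2.symm.trans hSB.symm)
  have hkz : z * k = k * z := ZTS_mem.1 hk
  obtain ⟨n, hn⟩ := exists_pow_eq_self_of_coprime hci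
  have hzj : z ^ j = (z ^ i) ^ (n * j) := by
    rw [pow_mul, hn]
  have hs : n * j ≡ 1 [MOD p] := by
    have h1 : z ^ (i * n) = z ^ 1 := by rw [pow_mul, hn, pow_one]
    have h2 : i * n ≡ 1 [MOD orderOf z] := pow_eq_pow_iff_modEq.1 h1
    have h3 : i * n ≡ 1 [MOD p] := by
      refine h2.of_dvd ?_
      rw [he]
      exact dvd_pow_self p (by omega)
    have h4 : n * j ≡ n * i [MOD p] := (Nat.ModEq.refl n).mul hij.symm
    rw [mul_comm n i] at h4
    exact h4.trans h3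
  have ht : (k * g) * (z ^ i) * (k * g)⁻¹ = (z ^ i) ^ (n * j) := by
    rw [← hzj]
    have h1 : (k * g) * (z ^ i) * (k * g)⁻¹ = k * (g * z ^ i * g⁻¹) * k⁻¹ := by group
    have h2 : Commute (z ^ j) k := (show Commute z k from hkz).pow_left j
    rw [h1, hg, ← h2.eq]
    group
  have h1 := ZTS_conj ht ((cz D).relIndex (TT M D θ))
  have h2 := ZTS_TT hkg
  have h3 : (z ^ i) ^ ((n * j) ^ ((cz D).relIndex (TT M D θ))) = z ^ i := by
    rw [← h1]
    rw [Subgroup.mem_centralizer_iff] at h2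
    have h4 := h2 (z ^ i) (D.pow_mem hz i)
    rw [← h4]
    group
  have h4 : (z ^ i) ^ p ^ e = 1 := by
    rw [← pow_mul, mul_comm, pow_mul, ← he, pow_orderOf_eq_one, one_pow]
  rw [hzj]
  exact (ZTS_key hp he1 h4 hs lo.bet h3).symm

end Pool.Agent.LE
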